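import Pool.Agent.helper84.NR.Spec

/-! Row PAR of the project NR (MP_133bfc_co). -/

set_option autoImplicit false

namespace Pool.Agent.helper84.NR

open scoped Classical
open Finset

theorem PAR_face (hIDX : IDX_stmt) {V F : Type} [Fintype V] (M : Cyc V F) (f : F) (v : V) :
    Even (univ.filter (fun e : Sym2 V => v ∈ e ∧ OnE M f e)).card := by
  by_cases h : OnV M f v
  · obtain ⟨k0, hk0⟩ := h
    obtain ⟨hinj, hver, hed, -, hper⟩ := hIDX V F M f k0
    have hlen := M.three f
    have h0 : M.bd f (k0 + 0) = v := hk0
    have hn : M.bd f (k0 + (M.len f - 1) + 1) = v := by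
      have : k0 + (M.len f - 1) + 1 = k0 + M.len f := by omega
      rw [this, hper, hk0]
    have hset : (univ.filter (fun e : Sym2 V => v ∈ e ∧ OnE M f e)) =
        {s(v, M.bd f (k0 + 0 + 1)), s(M.bd f (k0 + (M.len f - 1)), v)} := by
      ext e
      rw [mem_filter, mem_insert, mem_singleton]
      constructor
      · rintro ⟨-, hv, he⟩
        obtain ⟨a, ha, rfl⟩ := hed e he
        rcases Sym2.mem_iff.1 hv with h1 | h1
        · have h2 := hinj 0 a (by omega) ha (by rw [h0]; exact h1)
          subst h2
          left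
          rw [h0]
        · by_cases hlt : a + 1 < M.len f
          · have h2 := hinj 0 (a + 1) (by omega) hlt (by rw [h0]; exact h1)
            omega
          · have h3 : a = M.len f - 1 := by omega
            subst h3
            right
            rw [← h1]
      · rintro (rfl | rfl)
        · exact ⟨mem_univ _, Sym2.mem_mk_left _ _, ⟨k0, by rw [hk0]⟩⟩
        · exact ⟨mem_univ _, Sym2.mem_mk_right _ _, ⟨k0 + (M.len f - 1), by rw [hn]⟩⟩
    rw [hset, card_pair]
    · exact ⟨1, rfl⟩
    · intro heq
      rcases Sym2.eq_iff.1 heq with ⟨h1, -⟩ | ⟨-, h1⟩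
      · have h2 := hinj 0 (M.len f - 1) (by omega) (by omega) (by rw [h0]; exact h1)
        omega
      · have h2 := hinj 1 (M.len f - 1) (by omega) (by omega) h1
        omega
  · have hset : (univ.filter (fun e : Sym2 V => v ∈ e ∧ OnE M f e)) = ∅ := by
      rw [filter_eq_empty_iff]
      rintro e - ⟨hv, k, rfl⟩
      rcases Sym2.mem_iff.1 hv with h1 | h1
      · exact h ⟨k, h1.symm⟩
      · exact h ⟨k + 1, h1.symm⟩
    rw [hset, card_empty]
    exact ⟨0, rfl⟩

theorem PAR_edge {V F : Type} [Fintype F] (M : PMap V F) (S : Set F) (e : Sym2 V) :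
    Odd (univ.filter (fun f : F => f ∈ S ∧ OnE M.toCyc f e)).card ↔
      (∃ f, OnE M.toCyc f e ∧ f ∈ S) ∧ ∃ g, OnE M.toCyc g e ∧ g ∉ S := by
  by_cases h : ∃ f, OnE M.toCyc f e
  · obtain ⟨f, hf⟩ := h
    obtain ⟨g, hgf, hg, hall⟩ := M.two e f hf
    by_cases h1 : f ∈ S
    · by_cases h2 : g ∈ S
      · have hset : (univ.filter (fun f : F => f ∈ S ∧ OnE M.toCyc f e)) = {f, g} := by
          ext a
          rw [mem_filter, mem_insert, mem_singleton]
          constructor
          · rintro ⟨-, -, ha⟩
            exact hall a ha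
          · rintro (rfl | rfl)
            · exact ⟨mem_univ _, h1, hf⟩
            · exact ⟨mem_univ _, h2, hg⟩
        rw [hset, card_pair hgf.symm]
        constructor
        · intro h
          exact absurd h (by decide)
        · rintro ⟨-, b, hb, hbS⟩
          rcases hall b hb with rfl | rfl
          · exact absurd h1 hbS
          · exact absurd h2 hbS
      · have hset : (univ.filter (fun f : F => f ∈ S ∧ OnE M.toCyc f e)) = {f} := by
          ext a
          rw [mem_filter, mem_singleton]
          constructor
          · rintro ⟨-, haS, ha⟩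
            rcases hall a ha with rfl | rfl
            · rfl
            · exact absurd haS h2
          · rintro rfl
            exact ⟨mem_univ _, h1, hf⟩
        rw [hset, card_singleton]
        exact ⟨fun _ => ⟨⟨f, hf, h1⟩, g, hg, h2⟩, fun _ => odd_one⟩
    · by_cases h2 : g ∈ S
      · have hset : (univ.filter (fun f : F => f ∈ S ∧ OnE M.toCyc f e)) = {g} := by
          ext a
          rw [mem_filter, mem_singleton]
          constructor
          · rintro ⟨-, haS, ha⟩
            rcases hall a ha with rfl | rfl
            · exact absurd haS h1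
            · rfl
          · rintro rfl
            exact ⟨mem_univ _, h2, hg⟩
        rw [hset, card_singleton]
        exact ⟨fun _ => ⟨⟨g, hg, h2⟩, f, hf, h1⟩, fun _ => odd_one⟩
      · have hset : (univ.filter (fun f : F => f ∈ S ∧ OnE M.toCyc f e)) = ∅ := by
          rw [filter_eq_empty_iff]
          rintro a - ⟨haS, ha⟩
          rcases hall a ha with rfl | rfl
          · exact h1 haS
          · exact h2 haS
        rw [hset, card_empty]
        constructor
        · intro h
          exact absurd h (by decide)
        · rintro ⟨⟨b, hb, hbS⟩, -⟩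
          rcases hall b hb with rfl | rfl
          · exact absurd hbS h1
          · exact absurd hbS h2
  · have hset : (univ.filter (fun f : F => f ∈ S ∧ OnE M.toCyc f e)) = ∅ := by
      rw [filter_eq_empty_iff]
      rintro a - ⟨-, ha⟩
      exact h ⟨a, ha⟩
    rw [hset, card_empty]
    constructor
    · intro h
      exact absurd h (by decide)
    · rintro ⟨⟨b, hb, -⟩, -⟩
      exact absurd ⟨b, hb⟩ h

theorem PAR (hIDX : IDX_stmt) : PAR_stmt := by
  intro V F _ _ M S v
  have h1 : ∑ f ∈ univ.filter (fun f : F => f ∈ S),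
      (univ.filter (fun e : Sym2 V => v ∈ e ∧ OnE M.toCyc f e)).card =
      ∑ e ∈ univ.filter (fun e : Sym2 V => v ∈ e),
        (univ.filter (fun f : F => f ∈ S ∧ OnE M.toCyc f e)).card := by
    calc ∑ f ∈ univ.filter (fun f : F => f ∈ S),
        (univ.filter (fun e : Sym2 V => v ∈ e ∧ OnE M.toCyc f e)).card
        = ∑ f : F, ∑ e : Sym2 V, (if f ∈ S ∧ v ∈ e ∧ OnE M.toCyc f e then 1 else 0) := by
          rw [sum_filter]
          refine sum_congr rfl fun f _ => ?_
          rw [card_filter]
          by_cases hf : f ∈ S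
          · simp [hf]
          · simp [hf]
      _ = ∑ e : Sym2 V, ∑ f : F, (if f ∈ S ∧ v ∈ e ∧ OnE M.toCyc f e then 1 else 0) := sum_comm
      _ = ∑ e ∈ univ.filter (fun e : Sym2 V => v ∈ e),
        (univ.filter (fun f : F => f ∈ S ∧ OnE M.toCyc f e)).card := by
          rw [sum_filter]
          refine sum_congr rfl fun e _ => ?_
          rw [card_filter]
          by_cases he : v ∈ e
          · simp [he]
          · simp [he]
  have h2 : Even (∑ e ∈ univ.filter (fun e : Sym2 V => v ∈ e),
        (univ.filter (fun f : F => f ∈ S ∧ OnE M.toCyc f e)).card) := by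
    rw [← h1]
    exact even_sum _ fun f _ => PAR_face hIDX M.toCyc f v
  rw [even_sum_iff_even_card_odd] at h2
  have h3 : (univ.filter (fun e : Sym2 V => v ∈ e ∧ (∃ f, OnE M.toCyc f e ∧ f ∈ S) ∧
      ∃ g, OnE M.toCyc g e ∧ g ∉ S)) = (univ.filter (fun e : Sym2 V => v ∈ e)).filter
        (fun e => Odd (univ.filter (fun f : F => f ∈ S ∧ OnE M.toCyc f e)).card) := by
    ext e
    rw [mem_filter, mem_filter, mem_filter, PAR_edge M S e]
    tauto
  rw [h3]
  exact h2

end Pool.Agent.helper84.NR
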