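import Pool.Agent.helper84.NR.Spec

/-! Row UPP of the project NR (MP_133bfc_co). -/

set_option autoImplicit false

namespace Pool.Agent.helper84.NR

open scoped Classical
open Finset

theorem UPP_tri (hIDX : IDX_stmt) {V F : Type} (M : Cyc V F) (A : F) (x s s' : V)
    (hx : OnV M A x) (hs : OnV M A s) (hs' : OnV M A s') (hxs : x ≠ s) (hxs' : x ≠ s') (hss : s ≠ s')
    (h1 : OnE M A s(x, s)) (h2 : OnE M A s(x, s')) (h3 : OnE M A s(s, s')) :
    ∀ v, OnV M A v → v = x ∨ v = s ∨ v = s' := by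
  obtain ⟨k0, hk0⟩ := hx
  obtain ⟨hinj, hver, -, hedge, -⟩ := hIDX V F M A k0
  obtain ⟨a, ha, hsa⟩ := hver s hs
  obtain ⟨b, hb, hsb⟩ := hver s' hs'
  have hlen := M.three A
  have hx0 : M.bd A (k0 + 0) = x := hk0
  have ha0 : a ≠ 0 := by
    rintro rfl
    exact hxs (hx0.symm.trans hsa)
  have hb0 : b ≠ 0 := by
    rintro rfl
    exact hxs' (hx0.symm.trans hsb)
  have hab : a ≠ b := by
    rintro rfl
    exact hss (hsa.symm.trans hsb)
  have e1 := hedge 0 a (Nat.pos_of_ne_zero ha0) ha (by rw [hx0, hsa]; exact h1)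
  have e2 := hedge 0 b (Nat.pos_of_ne_zero hb0) hb (by rw [hx0, hsb]; exact h2)
  have e3 : a < b → b = a + 1 ∨ (a = 0 ∧ b = M.len A - 1) :=
    fun h => hedge a b h hb (by rw [hsa, hsb]; exact h3)
  have e4 : b < a → a = b + 1 ∨ (b = 0 ∧ a = M.len A - 1) :=
    fun h => hedge b a h ha (by rw [hsa, hsb, Sym2.eq_swap]; exact h3)
  have hl : M.len A = 3 := by omega
  intro v hv
  obtain ⟨c, hc, hvc⟩ := hver v hv
  have h : c = 0 ∨ c = a ∨ c = b := by omega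
  rcases h with rfl | rfl | rfl
  · exact Or.inl (hvc.symm.trans hx0)
  · exact Or.inr (Or.inl (hvc.symm.trans hsa))
  · exact Or.inr (Or.inr (hvc.symm.trans hsb))

theorem UPP_key (hIDX : IDX_stmt) (hEDG : EDG_stmt) {V F : Type} (M : PMap V F) (x y : V)
    (hb : Bad M x y) (A B B' : F) (hAx : OnV M.toCyc A x) (hBy : OnV M.toCyc B y)
    (hB'y : OnV M.toCyc B' y) (hne : B ≠ B') (s s' : V) (hss : s ≠ s') (hxs : Adj M.toCyc x s)
    (hxs' : Adj M.toCyc x s') (hAs : OnV M.toCyc A s) (hAs' : OnV M.toCyc A s')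
    (hBs : OnV M.toCyc B' s) (hBs' : OnV M.toCyc B' s') (v : V) (hAv : OnV M.toCyc A v)
    (hBv : OnV M.toCyc B v) : False := by
  obtain ⟨E1, E2⟩ := hEDG V F M
  have hx1 : x ≠ s := by
    obtain ⟨f, hf⟩ := hxs
    exact (E1 f x s hf).2.2
  have hx2 : x ≠ s' := by
    obtain ⟨f, hf⟩ := hxs'
    exact (E1 f x s' hf).2.2
  have hAB : A ≠ B' := by
    rintro rfl
    exact hb.ne A ⟨hAx, hB'y⟩
  have h3 := (M.poly A B' hAB s s' hss hAs hAs' hBs hBs').1
  have htri := UPP_tri hIDX M.toCyc A x s s' hAx hAs hAs' hx1 hx2 hss (E2 A x s hxs hAx hAs)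
    (E2 A x s' hxs' hAx hAs') h3 v hAv
  have hvx : v ≠ x := by
    rintro rfl
    exact hb.ne B ⟨hBv, hBy⟩
  have hvy : v ≠ y := by
    rintro rfl
    exact hb.ne A ⟨hAx, hAv⟩
  have hv : Adj M.toCyc x v ∧ OnV M.toCyc B' v := by
    rcases htri with h | h | h
    · exact absurd h hvx
    · rw [h]
      exact ⟨hxs, hBs⟩
    · rw [h]
      exact ⟨hxs', hBs'⟩
  exact hb.nn v hv.1 ⟨B, (M.poly B B' hne v y hvy hBv hBy hv.2 hB'y).1⟩

theorem UPP (hIDX : IDX_stmt) (hEDG : EDG_stmt) (hDEG : DEG_stmt) : UPP_stmt := by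
  intro V F _ _ M x y B hb hBy
  rw [← (hDEG V F M x).2.2.2.1]
  have hd1 : (((YF M y).erase B : Finset F) : Set F).PairwiseDisjoint (fun B' => PP M x B') := by
    intro B1 hB1 B2 hB2 hne
    rw [Function.onFun, Finset.disjoint_left]
    intro A hA1 hA2
    have hB1y : OnV M.toCyc B1 y := (mem_filter.1 (mem_erase.1 (mem_coe.1 hB1)).2).2
    have hB2y : OnV M.toCyc B2 y := (mem_filter.1 (mem_erase.1 (mem_coe.1 hB2)).2).2
    obtain ⟨-, hAx, s, s', h1, h2, h3, h4, h5, h6, h7⟩ := mem_filter.1 hA1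
    obtain ⟨-, -, t, t', -, -, -, g4, -, g6, -⟩ := mem_filter.1 hA2
    exact UPP_key hIDX hEDG M x y hb A B2 B1 hAx hB2y hB1y hne.symm s s' h1 h2 h3 h4 h5 h6 h7 t g4 g6
  have hd2 : Disjoint (NN M x B) (((YF M y).erase B).biUnion fun B' => PP M x B') := by
    rw [Finset.disjoint_left]
    intro A hA1 hA2
    obtain ⟨B', hB', hA2⟩ := mem_biUnion.1 hA2
    obtain ⟨hne, hB'⟩ := mem_erase.1 hB'
    have hB'y : OnV M.toCyc B' y := (mem_filter.1 hB').2
    obtain ⟨-, hAx, v, g1, g2⟩ := mem_filter.1 hA1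
    obtain ⟨-, -, s, s', h1, h2, h3, h4, h5, h6, h7⟩ := mem_filter.1 hA2
    exact UPP_key hIDX hEDG M x y hb A B B' hAx hBy hB'y hne.symm s s' h1 h2 h3 h4 h5 h6 h7 v g1 g2
  rw [← card_biUnion hd1, ← card_union_of_disjoint hd2]
  refine card_le_card ?_
  intro A hA
  rw [mem_filter]
  refine ⟨mem_univ _, ?_⟩
  rcases mem_union.1 hA with h | h
  · exact (mem_filter.1 h).2.1
  · obtain ⟨B', -, h⟩ := mem_biUnion.1 h
    exact (mem_filter.1 h).2.1

end Pool.Agent.helper84.NR
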